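import Pool.Agent.Helper42.KS.Goals

set_option autoImplicit false

/-! Packet HF. -/

namespace Pool.Agent.Helper42.KS.PkHF

open MeasureTheory
open scoped ENNReal NNReal

/-! ### Geometric sums -/

noncomputable def gm (c u : ℝ) : ℝ := min (u ^ c) (u ^ (-c))

theorem gm_nonneg {c u : ℝ} (hu : 0 ≤ u) : 0 ≤ gm c u :=
  le_min (Real.rpow_nonneg hu _) (Real.rpow_nonneg hu _)

theorem gm_le_one {c u : ℝ} (hc : 0 < c) (hu : 0 ≤ u) : gm c u ≤ 1 := by
  rcases le_total u 1 with h | h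
  · exact (min_le_left _ _).trans (Real.rpow_le_one hu h hc.le)
  · exact (min_le_right _ _).trans (Real.rpow_le_one_of_one_le_of_nonpos h (by linarith))

theorem pow_rp (c : ℝ) (j : ℕ) : ((2 : ℝ) ^ j) ^ (-c) = ((2 : ℝ) ^ (-c)) ^ j := by
  rw [← Real.rpow_natCast, ← Real.rpow_mul (by norm_num), mul_comm,
    Real.rpow_mul (by norm_num), Real.rpow_natCast]

theorem rho_pos (c : ℝ) : 0 < (2 : ℝ) ^ (-c) := Real.rpow_pos_of_pos (by norm_num) _

theorem rho_lt {c : ℝ} (hc : 0 < c) : (2 : ℝ) ^ (-c) < 1 :=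
  Real.rpow_lt_one_of_one_lt_of_neg (by norm_num) (by linarith)

theorem geo0 {c : ℝ} (hc : 0 < c) (J : ℕ) :
    ∑ j ∈ Finset.range J, ((2 : ℝ) ^ j) ^ (-c) ≤ 1 / (1 - (2 : ℝ) ^ (-c)) := by
  have h1 := rho_pos c
  have h2 := rho_lt hc
  rw [le_div_iff₀ (by linarith)]
  simp only [pow_rp]
  rw [mul_comm, mul_neg_geom_sum]
  have := pow_pos h1 J
  linarith

theorem geo_ge {c t : ℝ} (hc : 0 < c) (ht : 1 ≤ t) (J : ℕ) :
    ∑ j ∈ Finset.range J, gm c (2 ^ j * t) ≤ 1 / (1 - (2 : ℝ) ^ (-c)) := by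
  refine (Finset.sum_le_sum fun j _ => ?_).trans (geo0 hc J)
  refine (min_le_right _ _).trans ?_
  refine Real.rpow_le_rpow_of_nonpos (by positivity) ?_ (by linarith)
  have : (0 : ℝ) < 2 ^ j := by positivity
  nlinarith

theorem geo_le {c : ℝ} (hc : 0 < c) : ∀ (J : ℕ) (t : ℝ), 0 ≤ t → t ≤ 1 →
    ∑ j ∈ Finset.range J, gm c (2 ^ j * t) ≤
      2 / (1 - (2 : ℝ) ^ (-c)) - t ^ c * (2 : ℝ) ^ (-c) / (1 - (2 : ℝ) ^ (-c)) := by
  have h1 := rho_pos c
  have h2 := rho_lt hc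
  have h3 : 0 < 1 - (2 : ℝ) ^ (-c) := by linarith
  intro J
  induction J with
  | zero =>
    intro t ht0 ht1
    have h4 : t ^ c ≤ 1 := Real.rpow_le_one ht0 ht1 hc.le
    have h5 : 0 ≤ t ^ c := Real.rpow_nonneg ht0 _
    rw [Finset.range_zero, Finset.sum_empty, ← sub_div]
    apply div_nonneg _ h3.le
    nlinarith
  | succ J ih =>
    intro t ht0 ht1
    have h4 : t ^ c ≤ 1 := Real.rpow_le_one ht0 ht1 hc.le
    have h5 : 0 ≤ t ^ c := Real.rpow_nonneg ht0 _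
    rw [Finset.sum_range_succ']
    have e1 : ∀ j : ℕ, (2 : ℝ) ^ (j + 1) * t = 2 ^ j * (2 * t) := fun j => by ring
    simp only [e1, pow_zero, one_mul]
    have h6 : gm c t ≤ t ^ c := min_le_left _ _
    rcases le_total (2 * t) 1 with h | h
    · have h7 := ih (2 * t) (by linarith) h
      have h8 : (2 * t) ^ c * (2 : ℝ) ^ (-c) = t ^ c := by
        rw [Real.mul_rpow (by norm_num) ht0, Real.rpow_neg (by norm_num)]
        have : (2 : ℝ) ^ c ≠ 0 := (Real.rpow_pos_of_pos (by norm_num) _).ne'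
        field_simp
      rw [h8] at h7
      have h9 : t ^ c / (1 - (2 : ℝ) ^ (-c)) =
          t ^ c + t ^ c * (2 : ℝ) ^ (-c) / (1 - (2 : ℝ) ^ (-c)) := by
        field_simp
        ring
      rw [h9] at h7
      linarith
    · have h7 := geo_ge hc h J
      have h8 : t ^ c + t ^ c * (2 : ℝ) ^ (-c) / (1 - (2 : ℝ) ^ (-c)) ≤
          1 / (1 - (2 : ℝ) ^ (-c)) := by
        have h9 : t ^ c + t ^ c * (2 : ℝ) ^ (-c) / (1 - (2 : ℝ) ^ (-c)) =
            t ^ c / (1 - (2 : ℝ) ^ (-c)) := by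
          field_simp
          ring
        rw [h9]
        exact div_le_div_of_nonneg_right h4 h3.le
      have h10 : 2 / (1 - (2 : ℝ) ^ (-c)) =
          1 / (1 - (2 : ℝ) ^ (-c)) + 1 / (1 - (2 : ℝ) ^ (-c)) := by ring
      linarith

theorem geo {c t : ℝ} (hc : 0 < c) (ht : 0 ≤ t) (J : ℕ) :
    ∑ j ∈ Finset.range J, gm c (2 ^ j * t) ≤ 2 / (1 - (2 : ℝ) ^ (-c)) := by
  have h1 := rho_pos c
  have h2 := rho_lt hc
  have h3 : 0 < 1 - (2 : ℝ) ^ (-c) := by linarith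
  rcases le_total t 1 with h | h
  · refine (geo_le hc J t ht h).trans ?_
    have : 0 ≤ t ^ c * (2 : ℝ) ^ (-c) / (1 - (2 : ℝ) ^ (-c)) :=
      div_nonneg (mul_nonneg (Real.rpow_nonneg ht _) h1.le) h3.le
    linarith
  · refine (geo_ge hc h J).trans ?_
    exact div_le_div_of_nonneg_right (by norm_num) h3.le

theorem geo2 {c t : ℝ} (hc : 0 < c) (ht : 0 ≤ t) (J : ℕ) (S : Finset ℕ)
    (hS : S ⊆ Finset.range J) :
    ∑ j ∈ S, (gm c (2 ^ j * t) + ((2 : ℝ) ^ j) ^ (-c)) ^ 2 ≤ 6 / (1 - (2 : ℝ) ^ (-c)) := by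
  have h1 := rho_pos c
  have h2 := rho_lt hc
  have h3 : 0 < 1 - (2 : ℝ) ^ (-c) := by linarith
  have h4 : ∀ j : ℕ, (gm c (2 ^ j * t) + ((2 : ℝ) ^ j) ^ (-c)) ^ 2 ≤
      2 * gm c (2 ^ j * t) + 2 * ((2 : ℝ) ^ j) ^ (-c) := by
    intro j
    have a0 : 0 ≤ gm c (2 ^ j * t) := gm_nonneg (by positivity)
    have a1 : gm c (2 ^ j * t) ≤ 1 := gm_le_one hc (by positivity)
    have b0 : 0 ≤ ((2 : ℝ) ^ j) ^ (-c) := Real.rpow_nonneg (by positivity) _
    have b1 : ((2 : ℝ) ^ j) ^ (-c) ≤ 1 :=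
      Real.rpow_le_one_of_one_le_of_nonpos (one_le_pow₀ (by norm_num)) (by linarith)
    nlinarith [sq_nonneg (gm c (2 ^ j * t) - ((2 : ℝ) ^ j) ^ (-c))]
  calc ∑ j ∈ S, (gm c (2 ^ j * t) + ((2 : ℝ) ^ j) ^ (-c)) ^ 2
      ≤ ∑ j ∈ Finset.range J, (gm c (2 ^ j * t) + ((2 : ℝ) ^ j) ^ (-c)) ^ 2 :=
        Finset.sum_le_sum_of_subset_of_nonneg hS fun j _ _ => sq_nonneg _
    _ ≤ ∑ j ∈ Finset.range J, (2 * gm c (2 ^ j * t) + 2 * ((2 : ℝ) ^ j) ^ (-c)) :=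
        Finset.sum_le_sum fun j _ => h4 j
    _ = 2 * ∑ j ∈ Finset.range J, gm c (2 ^ j * t) +
        2 * ∑ j ∈ Finset.range J, ((2 : ℝ) ^ j) ^ (-c) := by
        rw [Finset.sum_add_distrib, ← Finset.mul_sum, ← Finset.mul_sum]
    _ ≤ 2 * (2 / (1 - (2 : ℝ) ^ (-c))) + 2 * (1 / (1 - (2 : ℝ) ^ (-c))) := by
        have := geo hc ht J
        have := geo0 hc J
        linarith
    _ = 6 / (1 - (2 : ℝ) ^ (-c)) := by ring

/-! ### Integrals -/

/-- The range of integration. -/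
def SJ (N M : ℝ) : Set ℝ := {B : ℝ | N < |B| ∧ |B| ≤ M}

theorem SJ_meas (N M : ℝ) : MeasurableSet (SJ N M) := by
  have : SJ N M = (fun B : ℝ => |B|) ⁻¹' (Set.Ioc N M) := rfl
  rw [this]
  exact (continuous_abs.measurable) measurableSet_Ioc

theorem SJ_sub (N M : ℝ) : SJ N M ⊆ Set.Icc (-M) M := by
  intro B hB
  exact abs_le.1 hB.2

theorem int_on {f : ℝ → ℝ} (hf : Continuous f) (N M : ℝ) : IntegrableOn f (SJ N M) :=
  (hf.continuousOn.integrableOn_compact isCompact_Icc).mono_set (SJ_sub N M)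

theorem int_pow {r N M : ℝ} (hr : r < -1) (hN : 0 ≤ N) :
    ∫ B in SJ N M, (1 + |B|) ^ r ≤ 2 * (1 + N) ^ (r + 1) / (-(r + 1)) := by
  have hpos : 0 < -(r + 1) := by linarith
  have hN1 : 0 < (1 + N) ^ (r + 1) := Real.rpow_pos_of_pos (by linarith) _
  have e1 : ∫ B in SJ N M, (1 + |B|) ^ r =
      ∫ B : ℝ, (Set.Ioc N M).indicator (fun x => (1 + x) ^ r) |B| := by
    rw [← integral_indicator (SJ_meas N M)]
    rfl
  rw [e1, integral_comp_abs (f := (Set.Ioc N M).indicator (fun x => (1 + x) ^ r)),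
    setIntegral_indicator measurableSet_Ioc]
  have e2 : Set.Ioi (0 : ℝ) ∩ Set.Ioc N M = Set.Ioc N M := by
    refine Set.inter_eq_right.2 fun x hx => ?_
    exact lt_of_le_of_lt hN hx.1
  rw [e2, mul_div_assoc]
  refine mul_le_mul_of_nonneg_left ?_ (by norm_num)
  rcases lt_or_ge M N with h | h
  · rw [Set.Ioc_eq_empty (by linarith), Measure.restrict_empty, integral_zero_measure]
    positivity
  · rw [← intervalIntegral.integral_of_le h, intervalIntegral.integral_comp_add_left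
      (fun x => x ^ r), integral_rpow]
    · rw [le_div_iff₀ hpos, div_mul_eq_mul_div, div_le_iff_of_neg (by linarith)]
      have hM1 : 0 < (1 + M) ^ (r + 1) := Real.rpow_pos_of_pos (by linarith) _
      nlinarith
    · right
      refine ⟨by linarith, ?_⟩
      rw [Set.uIcc_of_le (by linarith)]
      intro h0
      have := h0.1
      linarith

theorem cs {f : ℝ → ℝ} (hf : Continuous f) (N M P : ℝ)
    (hP : ∫ B in SJ N M, ((1 + |B|)⁻¹) ^ 2 ≤ P) :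
    (∫ B in SJ N M, f B) ^ 2 ≤ P * ∫ B in SJ N M, (1 + |B|) ^ 2 * f B ^ 2 := by
  have hc : Continuous (fun B : ℝ => 1 + |B|) := continuous_const.add continuous_abs
  have hne : ∀ B : ℝ, (1 + |B|) ≠ 0 := fun B => by positivity
  have hi : Continuous (fun B : ℝ => (1 + |B|)⁻¹) := hc.inv₀ hne
  have i1 : IntegrableOn (fun B : ℝ => ((1 + |B|)⁻¹) ^ 2) (SJ N M) := int_on (hi.pow 2) N M
  have i2 : IntegrableOn f (SJ N M) := int_on hf N M
  have i3 : IntegrableOn (fun B : ℝ => (1 + |B|) ^ 2 * f B ^ 2) (SJ N M) :=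
    int_on ((hc.pow 2).mul (hf.pow 2)) N M
  have hQ : 0 ≤ ∫ B in SJ N M, (1 + |B|) ^ 2 * f B ^ 2 :=
    integral_nonneg fun B => by positivity
  have key : ∀ a : ℝ, 0 ≤ (∫ B in SJ N M, ((1 + |B|)⁻¹) ^ 2) * (a * a) +
      (-2 * ∫ B in SJ N M, f B) * a + ∫ B in SJ N M, (1 + |B|) ^ 2 * f B ^ 2 := by
    intro a
    have e1 : ∫ B in SJ N M, (a * (1 + |B|)⁻¹ - (1 + |B|) * f B) ^ 2 =
        (∫ B in SJ N M, ((1 + |B|)⁻¹) ^ 2) * (a * a) +
      (-2 * ∫ B in SJ N M, f B) * a + ∫ B in SJ N M, (1 + |B|) ^ 2 * f B ^ 2 := by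
      have e2 : ∀ B : ℝ, (a * (1 + |B|)⁻¹ - (1 + |B|) * f B) ^ 2 =
          (a * a) * ((1 + |B|)⁻¹) ^ 2 + (-2 * a) * f B + (1 + |B|) ^ 2 * f B ^ 2 := by
        intro B
        have := hne B
        field_simp
        ring
      simp only [e2]
      have i12 : IntegrableOn (fun B : ℝ => (a * a) * ((1 + |B|)⁻¹) ^ 2 + (-2 * a) * f B)
          (SJ N M) := (i1.const_mul _).add (i2.const_mul _)
      have i1' : IntegrableOn (fun B : ℝ => (a * a) * ((1 + |B|)⁻¹) ^ 2) (SJ N M) :=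
        i1.const_mul _
      have i2' : IntegrableOn (fun B : ℝ => (-2 * a) * f B) (SJ N M) := i2.const_mul _
      rw [integral_add i12 i3, integral_add i1' i2', integral_const_mul, integral_const_mul]
      ring
    rw [← e1]
    exact integral_nonneg fun B => sq_nonneg _
  have h1 := discrim_le_zero key
  unfold discrim at h1
  have h2 : (∫ B in SJ N M, f B) ^ 2 ≤ (∫ B in SJ N M, ((1 + |B|)⁻¹) ^ 2) *
      ∫ B in SJ N M, (1 + |B|) ^ 2 * f B ^ 2 := by nlinarith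
  exact h2.trans (mul_le_mul_of_nonneg_right hP hQ)

theorem int_two {N M : ℝ} (hN : 0 ≤ N) : ∫ B in SJ N M, ((1 + |B|)⁻¹) ^ 2 ≤ 2 * (1 + N)⁻¹ := by
  have e1 : ∀ B : ℝ, ((1 + |B|)⁻¹) ^ 2 = (1 + |B|) ^ (-2 : ℝ) := by
    intro B
    rw [Real.rpow_neg (by positivity), inv_pow]
    norm_num
  simp only [e1]
  refine (int_pow (by norm_num) hN).trans (le_of_eq ?_)
  have : (-2 : ℝ) + 1 = -1 := by norm_num
  rw [this, Real.rpow_neg_one]
  ring

/-! ### The multiplier identity -/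

theorem ee_add (a b : ℝ) : ee (a + b) = ee a * ee b := by
  unfold ee
  rw [← Complex.exp_add]
  congr 1
  push_cast
  ring

theorem ee_sum {ι : Type*} (s : Finset ι) (f : ι → ℝ) : ee (∑ i ∈ s, f i) = ∏ i ∈ s, ee (f i) := by
  classical
  induction s using Finset.induction_on with
  | empty => simp [ee]
  | insert a s ha ih => rw [Finset.sum_insert ha, Finset.prod_insert ha, ee_add, ih]

theorem norm_ee (t : ℝ) : ‖ee t‖ = 1 := by
  unfold ee
  exact Complex.norm_exp_ofReal_mul_I _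

theorem ee_cont : Continuous ee := by
  unfold ee
  fun_prop

theorem sumZ (M : ℕ) (g : ℤ → ℂ) :
    ∑ y ∈ Finset.Ico (0 : ℤ) M, g y = ∑ n ∈ Finset.range M, g n := by
  symm
  refine Finset.sum_nbij (fun n : ℕ => (n : ℤ)) ?_ ?_ ?_ ?_
  · intro n hn
    rw [Finset.mem_range] at hn
    rw [Finset.mem_Ico]
    exact ⟨by positivity, by exact_mod_cast hn⟩
  · intro a _ b _ h
    exact Int.natCast_inj.1 h
  · intro y hy
    rw [Finset.coe_Ico, Set.mem_Ico] at hy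
    refine ⟨y.toNat, ?_, ?_⟩
    · rw [Finset.coe_range, Set.mem_Iio]
      omega
    · exact Int.toNat_of_nonneg hy.1
  · intro n _
    rfl

theorem ker_sum {d k M R : ℕ} (hM : M ≤ R) (α : ℝ) (ξ : Fin d → ℝ) :
    ∑ y ∈ box d R, kerT k M α y * ee (∑ i, (y i : ℝ) * ξ i) = ∏ ν, fS k M α (ξ ν) := by
  have h1 : box d M ⊆ box d R := by
    intro y hy
    unfold box at hy ⊢
    rw [Fintype.mem_piFinset] at hy ⊢
    intro i
    have := hy i
    rw [Finset.mem_Ico] at this ⊢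
    exact ⟨this.1, by have : (M : ℤ) ≤ R := by exact_mod_cast hM
                      omega⟩
  rw [← Finset.sum_subset h1]
  · have h2 : ∀ y ∈ box d M, kerT k M α y * ee (∑ i, (y i : ℝ) * ξ i) =
        ∏ i, ee (α * (y i : ℝ) ^ k + ξ i * (y i : ℝ)) := by
      intro y hy
      unfold box at hy
      rw [Fintype.mem_piFinset] at hy
      have h3 : ∀ i, 0 ≤ y i ∧ y i < M := fun i => Finset.mem_Ico.1 (hy i)
      unfold kerT
      rw [if_pos h3, ← ee_add, ← ee_sum]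
      congr 1
      rw [Finset.mul_sum, ← Finset.sum_add_distrib]
      exact Finset.sum_congr rfl fun i _ => by ring
    rw [Finset.sum_congr rfl h2]
    unfold box
    have h4 := Finset.prod_univ_sum (fun _ : Fin d => Finset.Ico (0 : ℤ) (M : ℤ))
      (fun (i : Fin d) (y : ℤ) => ee (α * (y : ℝ) ^ k + ξ i * (y : ℝ)))
    rw [← h4]
    refine Finset.prod_congr rfl fun ν _ => ?_
    unfold fS
    rw [sumZ M (fun y : ℤ => ee (α * (y : ℝ) ^ k + ξ ν * (y : ℝ)))]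
    simp only [Int.cast_natCast]
  · intro y _ hy
    unfold kerT
    rw [if_neg, zero_mul]
    intro h
    apply hy
    unfold box
    rw [Fintype.mem_piFinset]
    intro i
    exact Finset.mem_Ico.2 (h i)

theorem mult_id {d k q R : ℕ} (a : ℤ) (B : ℝ) (ξ : Fin d → ℝ) :
    ∑ y ∈ box d R, Dk k a q R B y * ee (∑ i, (y i : ℝ) * ξ i) =
      ∏ ν, uu k R q a B (ξ ν) - ∏ ν, vv k R q a B (ξ ν) := by
  have hqR : q * (R / q) ≤ R := Nat.mul_div_le R q
  have h1 := ker_sum (k := k) (le_refl R) (a / q + B / (R : ℝ) ^ k) ξ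
  have h2 := ker_sum (k := k) hqR ((a : ℝ) / q) ξ
  have e1 : ∏ ν, uu k R q a B (ξ ν) =
      ((R : ℂ) ^ d)⁻¹ * ∏ ν, fS k R (a / q + B / (R : ℝ) ^ k) (ξ ν) := by
    unfold uu
    rw [Finset.prod_mul_distrib, Finset.prod_const, Finset.card_univ, Fintype.card_fin, inv_pow]
  have e2 : ∏ ν, vv k R q a B (ξ ν) =
      (VV k B 0) ^ d * ((((q * (R / q) : ℕ) : ℂ) ^ d)⁻¹ *
        ∏ ν, fS k (q * (R / q)) (a / q) (ξ ν)) := by
    unfold vv
    rw [Finset.prod_mul_distrib, Finset.prod_mul_distrib, Finset.prod_const, Finset.prod_const,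
      Finset.card_univ, Fintype.card_fin, inv_pow]
  rw [e1, e2, ← h1, ← h2, Finset.mul_sum, Finset.mul_sum, Finset.mul_sum,
    ← Finset.sum_sub_distrib]
  refine Finset.sum_congr rfl fun y _ => ?_
  unfold Dk
  ring

theorem Dk_supp {d k q R : ℕ} (a : ℤ) (B : ℝ) (y : Fin d → ℤ) (hy : y ∉ box d R) :
    Dk k a q R B y = 0 := by
  have h1 : ∀ M : ℕ, M ≤ R → ∀ α : ℝ, kerT k M α y = 0 := by
    intro M hM α
    unfold kerT
    rw [if_neg]
    intro h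
    apply hy
    unfold box
    rw [Fintype.mem_piFinset]
    intro i
    rw [Finset.mem_Ico]
    have : (M : ℤ) ≤ R := by exact_mod_cast hM
    exact ⟨(h i).1, by have := (h i).2
                       omega⟩
  unfold Dk
  rw [h1 R le_rfl, h1 _ (Nat.mul_div_le R q)]
  ring

/-! ### Continuity in B -/

theorem VV_cont (k : ℕ) : Continuous (fun B : ℝ => VV k B 0) := by
  unfold VV
  apply intervalIntegral.continuous_parametric_intervalIntegral_of_continuous'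
  apply ee_cont.comp
  fun_prop

theorem app_cont {d k q R : ℕ} (a : ℤ) (E : Finset (Fin d → ℤ)) (x : Fin d → ℤ) :
    Continuous (fun B : ℝ => ‖app (Dk k a q R B) E x‖) := by
  apply Continuous.norm
  unfold app
  apply continuous_finsetSum
  intro z _
  unfold Dk
  have h1 : Continuous (fun B : ℝ => kerT k R (a / q + B / (R : ℝ) ^ k) (x - z)) := by
    unfold kerT
    split_ifs with h
    · apply ee_cont.comp
      fun_prop
    · exact continuous_const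
  have h2 := VV_cont k
  fun_prop

/-! ### Fixed B -/

/-- The cube. -/
def cube (d : ℕ) : Set (Fin d → ℝ) := Set.pi Set.univ (fun _ : Fin d => Set.Icc (0 : ℝ) 1)

theorem cube_compact (d : ℕ) : IsCompact (cube d) := isCompact_univ_pi fun _ => isCompact_Icc

/-- The multiplier. -/
noncomputable def mm {d : ℕ} (k : ℕ) (a : ℤ) (q R : ℕ) (B : ℝ) (ξ : Fin d → ℝ) : ℂ :=
  ∑ y ∈ box d R, Dk k a q R B y * ee (∑ i, (y i : ℝ) * ξ i)

/-- The Fourier transform of E. -/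
noncomputable def Eh {d : ℕ} (E : Finset (Fin d → ℤ)) (ξ : Fin d → ℝ) : ℂ :=
  ∑ z ∈ E, ee (∑ i, (z i : ℝ) * ξ i)

theorem mm_cont {d : ℕ} (k : ℕ) (a : ℤ) (q R : ℕ) (B : ℝ) :
    Continuous (fun ξ : Fin d → ℝ => mm k a q R B ξ) := by
  unfold mm
  apply continuous_finsetSum
  intro y _
  apply continuous_const.mul
  apply ee_cont.comp
  fun_prop

theorem Eh_cont {d : ℕ} (E : Finset (Fin d → ℤ)) : Continuous (fun ξ : Fin d → ℝ => Eh E ξ) := by
  unfold Eh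
  apply continuous_finsetSum
  intro y _
  apply ee_cont.comp
  fun_prop

/-- the frequency distance -/
theorem freq {d q : ℕ} (hd : 1 ≤ d) (hq : 1 ≤ q) (ξ : Fin d → ℝ) :
    ∃ (b : Fin d → ℤ) (θ : Fin d → ℝ) (ν₀ : Fin d), (∀ ν, ξ ν = b ν / q + θ ν) ∧
      (∀ ν, |θ ν| ≤ 1 / (2 * q)) ∧ (∀ ν, |θ ν| ≤ |θ ν₀|) := by
  have hq0 : (0 : ℝ) < q := by exact_mod_cast hq
  have : Nonempty (Fin d) := ⟨⟨0, by omega⟩⟩
  obtain ⟨ν₀, hν₀⟩ := Finite.exists_max
    (fun ν : Fin d => |ξ ν - (round (q * ξ ν) : ℤ) / (q : ℝ)|)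
  refine ⟨fun ν => round (q * ξ ν), fun ν => ξ ν - (round (q * ξ ν) : ℤ) / (q : ℝ), ν₀,
    fun ν => by ring, fun ν => ?_, hν₀⟩
  have h1 := abs_sub_round ((q : ℝ) * ξ ν)
  have h2 : ξ ν - (round (q * ξ ν) : ℤ) / (q : ℝ) = (q * ξ ν - (round (q * ξ ν) : ℤ)) / q := by
    field_simp
  simp only [h2]
  rw [abs_div, abs_of_pos hq0, div_le_div_iff₀ hq0 (by positivity)]
  nlinarith [abs_nonneg ((q : ℝ) * ξ ν - (round (q * ξ ν) : ℤ))]

theorem AA_nonneg (k q : ℕ) (ε B : ℝ) : 0 ≤ AA k q ε B := by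
  unfold AA
  have : 0 ≤ 1 + |B| := by positivity
  exact mul_nonneg (Real.rpow_nonneg (by positivity) _) (Real.rpow_nonneg this _)

theorem AA_pow {k q d : ℕ} (ε B : ℝ) (hq : 1 ≤ q) :
    ((AA k q ε B) ^ d) ^ 2 = (q : ℝ) ^ (-(2 * (d : ℝ) / k) + 2 * d * ε) *
      (1 + |B|) ^ (-(2 * (d : ℝ) / k) + 2 * d * ε) := by
  have h1 : (0 : ℝ) ≤ 1 + |B| := by positivity
  have h2 : (0 : ℝ) ≤ q := by positivity
  unfold AA
  rw [← pow_mul, mul_pow, ← Real.rpow_natCast, ← Real.rpow_natCast, ← Real.rpow_mul h2,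
    ← Real.rpow_mul h1]
  have e : (-(1 / (k : ℝ)) + ε) * ((d * 2 : ℕ) : ℝ) = -(2 * (d : ℝ) / k) + 2 * d * ε := by
    push_cast
    ring
  rw [e]

theorem fixB (hB : G_BES) (hP : G_PAR) {k d : ℕ} {ε C c : ℝ} (hd : 1 ≤ d) (hc : 0 < c)
    (hM : ∀ (R q : ℕ) (a : ℤ) (B : ℝ) (b : Fin d → ℤ) (θ : Fin d → ℝ) (ν₀ : Fin d), 1 ≤ R →
      1 ≤ q → IsCoprime a (q : ℤ) → (q : ℝ) ≤ (R : ℝ) ^ (1 / 16 : ℝ) →
      |B| ≤ (R : ℝ) ^ (1 / 16 : ℝ) →
      (∀ ν, |θ ν| ≤ 1 / (2 * q)) → (∀ ν, |θ ν| ≤ |θ ν₀|) →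
      ‖∏ ν, uu k R q a B (b ν / q + θ ν) - ∏ ν, vv k R q a B (b ν / q + θ ν)‖ ≤
      C * (AA k q ε B) ^ d * (min ((R * |θ ν₀|) ^ c) ((R * |θ ν₀|) ^ (-c)) + (R : ℝ) ^ (-c)))
    (q J : ℕ) (a : ℤ) (B : ℝ) (E X : Finset (Fin d → ℤ)) (S : Finset ℕ) (hq : 1 ≤ q)
    (hqa : IsCoprime a (q : ℤ)) (hS : S ⊆ Finset.range J)
    (hS1 : ∀ j ∈ S, (q : ℝ) ≤ ((2 : ℝ) ^ j) ^ (1 / 16 : ℝ))
    (hS2 : ∀ j ∈ S, |B| ≤ ((2 : ℝ) ^ j) ^ (1 / 16 : ℝ)) :
    ∑ j ∈ S, ∑ x ∈ X, ‖app (Dk k a q (2 ^ j) B) E x‖ ^ 2 ≤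
      (C ^ 2 * (6 / (1 - (2 : ℝ) ^ (-c)))) * ((AA k q ε B) ^ d) ^ 2 * E.card := by
  have i0 : ∀ j : ℕ, IntegrableOn (fun ξ : Fin d → ℝ => ‖mm k a q (2 ^ j) B ξ‖ ^ 2 *
      ‖Eh E ξ‖ ^ 2) (cube d) := by
    intro j
    have : Continuous (fun ξ : Fin d → ℝ => ‖mm k a q (2 ^ j) B ξ‖ ^ 2 * ‖Eh E ξ‖ ^ 2) := by
      have h1 := mm_cont (d := d) k a q (2 ^ j) B
      have h2 := Eh_cont E
      fun_prop
    exact this.continuousOn.integrableOn_compact (cube_compact d)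
  have i1 : IntegrableOn (fun ξ : Fin d → ℝ => ‖Eh E ξ‖ ^ 2) (cube d) := by
    have h2 := Eh_cont E
    have : Continuous (fun ξ : Fin d → ℝ => ‖Eh E ξ‖ ^ 2) := by fun_prop
    exact this.continuousOn.integrableOn_compact (cube_compact d)
  have key : ∀ ξ : Fin d → ℝ, ∑ j ∈ S, ‖mm k a q (2 ^ j) B ξ‖ ^ 2 ≤
      (C ^ 2 * (6 / (1 - (2 : ℝ) ^ (-c)))) * ((AA k q ε B) ^ d) ^ 2 := by
    intro ξ
    obtain ⟨b, θ, ν₀, h1, h2, h3⟩ := freq hd hq ξ
    have h4 : ∀ j ∈ S, ‖mm k a q (2 ^ j) B ξ‖ ^ 2 ≤ (C * (AA k q ε B) ^ d) ^ 2 *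
        (gm c (2 ^ j * |θ ν₀|) + ((2 : ℝ) ^ j) ^ (-c)) ^ 2 := by
      intro j hj
      have h5 := hM (2 ^ j) q a B b θ ν₀ Nat.one_le_two_pow hq hqa
        (by push_cast; exact hS1 j hj) (by push_cast; exact hS2 j hj) h2 h3
      have h6 : mm k a q (2 ^ j) B ξ =
          ∏ ν, uu k (2 ^ j) q a B (b ν / q + θ ν) - ∏ ν, vv k (2 ^ j) q a B (b ν / q + θ ν) := by
        unfold mm
        rw [mult_id]
        simp only [h1]
      rw [← h6] at h5
      rw [← mul_pow]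
      refine pow_le_pow_left₀ (norm_nonneg _) (h5.trans (le_of_eq ?_)) 2
      unfold gm
      push_cast
      rfl
    refine (Finset.sum_le_sum h4).trans ?_
    rw [← Finset.mul_sum]
    have h7 := geo2 hc (abs_nonneg (θ ν₀)) J S hS
    refine (mul_le_mul_of_nonneg_left h7 (sq_nonneg _)).trans (le_of_eq ?_)
    ring
  calc ∑ j ∈ S, ∑ x ∈ X, ‖app (Dk k a q (2 ^ j) B) E x‖ ^ 2
      ≤ ∑ j ∈ S, ∫ ξ in cube d, ‖mm k a q (2 ^ j) B ξ‖ ^ 2 * ‖Eh E ξ‖ ^ 2 :=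
        Finset.sum_le_sum fun j _ => hB d (box d (2 ^ j)) E X (Dk k a q (2 ^ j) B)
          (Dk_supp a B)
    _ = ∫ ξ in cube d, ∑ j ∈ S, ‖mm k a q (2 ^ j) B ξ‖ ^ 2 * ‖Eh E ξ‖ ^ 2 := by
        rw [integral_finsetSum]
        exact fun j _ => i0 j
    _ ≤ ∫ ξ in cube d, ((C ^ 2 * (6 / (1 - (2 : ℝ) ^ (-c)))) * ((AA k q ε B) ^ d) ^ 2) *
          ‖Eh E ξ‖ ^ 2 := by
        refine integral_mono (integrable_finsetSum _ fun j _ => i0 j) (i1.const_mul _) ?_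
        intro ξ
        simp only
        rw [← Finset.sum_mul]
        exact mul_le_mul_of_nonneg_right (key ξ) (sq_nonneg _)
    _ = (C ^ 2 * (6 / (1 - (2 : ℝ) ^ (-c)))) * ((AA k q ε B) ^ d) ^ 2 * E.card := by
        rw [integral_const_mul]
        congr 1
        exact hP d E

/-! ### Assembly -/

theorem thm : G_MULT → G_BES → G_PAR → G_HF := by
  intro hMU hBE hPA k d ε hk hkd hε hε2
  have hk0 : (0 : ℝ) < k := by
    have : 0 < k := by omega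
    exact_mod_cast this
  have hd1 : 1 ≤ d := by omega
  have hd0 : (0 : ℝ) < d := by exact_mod_cast hd1
  obtain ⟨C₀, c, hc, hM₀⟩ := hMU k d ε hk hd1 hε
  -- nonnegative constant
  set C : ℝ := |C₀| with hCdef
  have hC : 0 ≤ C := abs_nonneg _
  have hM : ∀ (R q : ℕ) (a : ℤ) (B : ℝ) (b : Fin d → ℤ) (θ : Fin d → ℝ) (ν₀ : Fin d), 1 ≤ R →
      1 ≤ q → IsCoprime a (q : ℤ) → (q : ℝ) ≤ (R : ℝ) ^ (1 / 16 : ℝ) →
      |B| ≤ (R : ℝ) ^ (1 / 16 : ℝ) →
      (∀ ν, |θ ν| ≤ 1 / (2 * q)) → (∀ ν, |θ ν| ≤ |θ ν₀|) →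
      ‖∏ ν, uu k R q a B (b ν / q + θ ν) - ∏ ν, vv k R q a B (b ν / q + θ ν)‖ ≤
      C * (AA k q ε B) ^ d *
        (min ((R * |θ ν₀|) ^ c) ((R * |θ ν₀|) ^ (-c)) + (R : ℝ) ^ (-c)) := by
    intro R q a B b θ ν₀ h1 h2 h3 h4 h5 h6 h7
    refine (hM₀ R q a B b θ ν₀ h1 h2 h3 h4 h5 h6 h7).trans ?_
    have h8 : 0 ≤ (AA k q ε B) ^ d := pow_nonneg (AA_nonneg k q ε B) d
    have h9 : 0 ≤ min (((R : ℝ) * |θ ν₀|) ^ c) (((R : ℝ) * |θ ν₀|) ^ (-c)) + (R : ℝ) ^ (-c) :=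
      add_nonneg (gm_nonneg (by positivity)) (Real.rpow_nonneg (by positivity) _)
    exact mul_le_mul_of_nonneg_right
      (mul_le_mul_of_nonneg_right (le_abs_self _) h8) h9
  set s : ℝ := 2 * (d : ℝ) / k - 2 * d * ε with hs
  have hs3 : 3 < s := by
    have h1 : 2 * (d : ℝ) * ε ≤ d / k := by
      have : 2 * (d : ℝ) * ε ≤ 2 * d * (1 / (2 * k)) :=
        mul_le_mul_of_nonneg_left hε2 (by positivity)
      refine this.trans (le_of_eq ?_)
      field_simp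
    have h2 : 3 < (d : ℝ) / k := by
      rw [lt_div_iff₀ hk0]
      exact_mod_cast hkd
    have h3 : 2 * (d : ℝ) / k = d / k + d / k := by ring
    rw [hs, h3]
    linarith
  set K : ℝ := C ^ 2 * (6 / (1 - (2 : ℝ) ^ (-c))) with hK
  have hK0 : 0 ≤ K := by
    have := rho_lt hc
    rw [hK]
    exact mul_nonneg (sq_nonneg _) (div_nonneg (by norm_num) (by linarith))
  refine ⟨4 / (s - 3) * K, ?_⟩
  intro q J a N E X hq hqa hN
  have hN1 : (0 : ℝ) < 1 + N := by linarith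
  set S : Finset ℕ := (Finset.range J).filter
    (fun j => (q : ℝ) ≤ ((2 : ℝ) ^ j) ^ (1 / 16 : ℝ)) with hS
  set MJ : ℝ := ((2 : ℝ) ^ J) ^ (1 / 16 : ℝ) with hMJ
  set M : ℕ → ℝ := fun j => ((2 : ℝ) ^ j) ^ (1 / 16 : ℝ) with hMd
  have hMle : ∀ j ∈ S, M j ≤ MJ := by
    intro j hj
    have h1 : j < J := Finset.mem_range.1 (Finset.mem_filter.1 hj).1
    exact Real.rpow_le_rpow (by positivity) (pow_le_pow_right₀ (by norm_num) h1.le) (by norm_num)
  have hsub : ∀ j ∈ S, SJ N (M j) ⊆ SJ N MJ := fun j hj B hB => ⟨hB.1, hB.2.trans (hMle j hj)⟩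
  set F : ℕ → (Fin d → ℤ) → ℝ → ℝ := fun j x B => ‖app (Dk k a q (2 ^ j) B) E x‖ with hF
  have hFc : ∀ j x, Continuous (F j x) := fun j x => app_cont a E x
  have hGc : ∀ j x, Continuous (fun B : ℝ => (1 + |B|) ^ 2 * F j x B ^ 2) := by
    intro j x
    have h1 := hFc j x
    have h2 : Continuous (fun B : ℝ => 1 + |B|) := continuous_const.add continuous_abs
    exact (h2.pow 2).mul (h1.pow 2)
  -- Cauchy-Schwarz
  have step1 : ∑ j ∈ S, ∑ x ∈ X, (∫ B in SJ N (M j), F j x B) ^ 2 ≤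
      ∑ j ∈ S, ∑ x ∈ X, 2 * (1 + N)⁻¹ * ∫ B in SJ N (M j), (1 + |B|) ^ 2 * F j x B ^ 2 :=
    Finset.sum_le_sum fun j _ => Finset.sum_le_sum fun x _ => cs (hFc j x) _ _ _ (int_two hN)
  -- common domain
  have step2 : ∀ j ∈ S, ∀ x ∈ X, ∫ B in SJ N (M j), (1 + |B|) ^ 2 * F j x B ^ 2 =
      ∫ B in SJ N MJ, (SJ N (M j)).indicator (fun B => (1 + |B|) ^ 2 * F j x B ^ 2) B := by
    intro j hj x _
    rw [setIntegral_indicator (SJ_meas _ _), Set.inter_eq_right.2 (hsub j hj)]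
  have i2 : ∀ j x, IntegrableOn
      (fun B => (SJ N (M j)).indicator (fun B => (1 + |B|) ^ 2 * F j x B ^ 2) B) (SJ N MJ) :=
    fun j x => (int_on (hGc j x) N MJ).indicator (SJ_meas _ _)
  have hpt : ∀ B : ℝ, ∑ j ∈ S, ∑ x ∈ X,
      (SJ N (M j)).indicator (fun B => (1 + |B|) ^ 2 * F j x B ^ 2) B ≤
      (K * (q : ℝ) ^ (-(2 * (d : ℝ) / k) + 2 * d * ε) * E.card) * (1 + |B|) ^ (2 - s) := by
    intro B
    have hB1 : (0 : ℝ) < 1 + |B| := by positivity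
    set T : Finset ℕ := S.filter (fun j => |B| ≤ M j) with hT
    have h1 : ∑ j ∈ S, ∑ x ∈ X,
        (SJ N (M j)).indicator (fun B => (1 + |B|) ^ 2 * F j x B ^ 2) B ≤
        ∑ j ∈ T, ∑ x ∈ X, (1 + |B|) ^ 2 * F j x B ^ 2 := by
      have h00 : ∑ j ∈ T, ∑ x ∈ X, (1 + |B|) ^ 2 * F j x B ^ 2 =
          ∑ j ∈ S, if |B| ≤ M j then ∑ x ∈ X, (1 + |B|) ^ 2 * F j x B ^ 2 else 0 :=
        Finset.sum_filter (s := S) (fun j => |B| ≤ M j) _
      rw [h00]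
      refine Finset.sum_le_sum fun j _ => ?_
      by_cases h : |B| ≤ M j
      · rw [if_pos h]
        have h0 : ∀ x ∈ X, (SJ N (M j)).indicator (fun B => (1 + |B|) ^ 2 * F j x B ^ 2) B ≤
            (1 + |B|) ^ 2 * F j x B ^ 2 := by
          intro x _
          by_cases hBm : B ∈ SJ N (M j)
          · rw [Set.indicator_of_mem hBm]
          · rw [Set.indicator_of_notMem hBm]
            positivity
        exact Finset.sum_le_sum h0
      · rw [if_neg h]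
        refine le_of_eq (Finset.sum_eq_zero fun x _ => ?_)
        exact Set.indicator_of_notMem (fun h' => h h'.2) _
    refine h1.trans ?_
    have h2 : ∑ j ∈ T, ∑ x ∈ X, (1 + |B|) ^ 2 * F j x B ^ 2 =
        (1 + |B|) ^ 2 * ∑ j ∈ T, ∑ x ∈ X, ‖app (Dk k a q (2 ^ j) B) E x‖ ^ 2 := by
      rw [Finset.mul_sum]
      exact Finset.sum_congr rfl fun j _ => by rw [Finset.mul_sum]
    rw [h2]
    have h3 := fixB hBE hPA hd1 hc hM q J a B E X T hq hqa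
      ((Finset.filter_subset _ _).trans (Finset.filter_subset _ _))
      (fun j hj => (Finset.mem_filter.1 (Finset.mem_filter.1 hj).1).2)
      (fun j hj => (Finset.mem_filter.1 hj).2)
    refine (mul_le_mul_of_nonneg_left h3 (by positivity)).trans (le_of_eq ?_)
    rw [AA_pow ε B hq]
    have h4 : (1 + |B|) ^ (2 - s) = (1 + |B|) ^ 2 *
        (1 + |B|) ^ (-(2 * (d : ℝ) / k) + 2 * d * ε) := by
      have : 2 - s = 2 + (-(2 * (d : ℝ) / k) + 2 * d * ε) := by rw [hs]; ring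
      rw [this, Real.rpow_add hB1]
      norm_num
    rw [h4]
    ring
  have icont : Continuous (fun B : ℝ => (1 + |B|) ^ (2 - s)) := by
    have h2 : Continuous (fun B : ℝ => 1 + |B|) := continuous_const.add continuous_abs
    exact h2.rpow_const fun B => Or.inl (by positivity)
  have i3 : IntegrableOn (fun B : ℝ =>
      (K * (q : ℝ) ^ (-(2 * (d : ℝ) / k) + 2 * d * ε) * E.card) * (1 + |B|) ^ (2 - s))
      (SJ N MJ) := (int_on icont N MJ).const_mul _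
  calc ∑ j ∈ S, ∑ x ∈ X, (∫ B in SJ N (M j), F j x B) ^ 2
      ≤ ∑ j ∈ S, ∑ x ∈ X, 2 * (1 + N)⁻¹ * ∫ B in SJ N (M j), (1 + |B|) ^ 2 * F j x B ^ 2 := step1
    _ = 2 * (1 + N)⁻¹ * ∑ j ∈ S, ∑ x ∈ X, ∫ B in SJ N MJ,
          (SJ N (M j)).indicator (fun B => (1 + |B|) ^ 2 * F j x B ^ 2) B := by
        rw [Finset.mul_sum]
        refine Finset.sum_congr rfl fun j hj => ?_
        rw [Finset.mul_sum]
        refine Finset.sum_congr rfl fun x hx => ?_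
        rw [step2 j hj x hx]
    _ = 2 * (1 + N)⁻¹ * ∫ B in SJ N MJ, ∑ j ∈ S, ∑ x ∈ X,
          (SJ N (M j)).indicator (fun B => (1 + |B|) ^ 2 * F j x B ^ 2) B := by
        rw [integral_finsetSum]
        · congr 1
          refine Finset.sum_congr rfl fun j _ => ?_
          rw [integral_finsetSum]
          exact fun x _ => i2 j x
        · exact fun j _ => integrable_finsetSum _ fun x _ => i2 j x
    _ ≤ 2 * (1 + N)⁻¹ * ∫ B in SJ N MJ,
          (K * (q : ℝ) ^ (-(2 * (d : ℝ) / k) + 2 * d * ε) * E.card) * (1 + |B|) ^ (2 - s) := by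
        refine mul_le_mul_of_nonneg_left ?_ (by positivity)
        refine integral_mono (integrable_finsetSum _ fun j _ =>
          integrable_finsetSum _ fun x _ => i2 j x) i3 fun B => hpt B
    _ ≤ 2 * (1 + N)⁻¹ * ((K * (q : ℝ) ^ (-(2 * (d : ℝ) / k) + 2 * d * ε) * E.card) *
          (2 * (1 + N) ^ (2 - s + 1) / (-(2 - s + 1)))) := by
        rw [integral_const_mul]
        refine mul_le_mul_of_nonneg_left ?_ (by positivity)
        refine mul_le_mul_of_nonneg_left (int_pow (by linarith) hN) ?_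
        have : 0 ≤ (q : ℝ) ^ (-(2 * (d : ℝ) / k) + 2 * d * ε) :=
          Real.rpow_nonneg (by positivity) _
        positivity
    _ = 4 / (s - 3) * K * ((q : ℝ) ^ (-(2 * (d : ℝ) / k) + 2 * d * ε) *
        (1 + N) ^ (2 - 2 * (d : ℝ) / k + 2 * d * ε)) * E.card := by
        have h5 : (1 + N) ^ (2 - s + 1) = (1 + N) ^ (2 - 2 * (d : ℝ) / k + 2 * d * ε) * (1 + N) := by
          have : 2 - s + 1 = (2 - 2 * (d : ℝ) / k + 2 * d * ε) + 1 := by rw [hs]; ring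
          rw [this, Real.rpow_add hN1, Real.rpow_one]
        have h6 : -(2 - s + 1) = s - 3 := by ring
        have h7 : s - 3 ≠ 0 := by linarith
        rw [h5, h6]
        field_simp
        ring

end Pool.Agent.Helper42.KS.PkHF
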