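import Pool.Agent.Helper75.KS.GoalsA

set_option autoImplicit false

namespace Pool.Agent.Helper26.KS

open MeasureTheory Filter Topology Set
open Pool.Agent.Helper44.KS Pool.Agent.Helper75.KS

/-- the pointwise bound -/
theorem lsb_point {F0 Fh Fs p h s : ℝ} (hF0 : 0 < F0) (hF1 : F0 ≤ 1) (hFs : 0 ≤ Fs) (hh : 0 < h)
    (hs : h < s) (hp0 : 0 ≤ p) (hp : p ≤ 1) (hsum : p + Fh ≤ F0)
    (hlc : F0 ^ (1 - h / s) * Fs ^ (h / s) ≤ Fh) : Fs ≤ Real.exp (-(p / h) * s) := by
  rcases hFs.eq_or_lt with h0 | h0
  · rw [← h0]; exact (Real.exp_pos _).le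
  have hs0 : 0 < s := hh.trans hs
  have ht : 0 < h / s := div_pos hh hs0
  have h1 : Fh ≤ F0 * (1 - p) := by nlinarith
  have h2 : F0 ^ (1 - h / s) * Fs ^ (h / s) ≤ F0 ^ (1 - h / s) * (F0 ^ (h / s) * (1 - p)) := by
    have h3 : F0 ^ (1 - h / s) * (F0 ^ (h / s) * (1 - p)) = F0 * (1 - p) := by
      rw [← mul_assoc, ← Real.rpow_add hF0]
      simp
    rw [h3]
    exact hlc.trans h1
  have h3 : Fs ^ (h / s) ≤ F0 ^ (h / s) * (1 - p) :=
    le_of_mul_le_mul_left h2 (Real.rpow_pos_of_pos hF0 _)
  have h4 : F0 ^ (h / s) ≤ 1 := Real.rpow_le_one hF0.le hF1 ht.le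
  have h5 : Fs ^ (h / s) ≤ Real.exp (-p) := by
    have h6 : 1 - p ≤ Real.exp (-p) := by
      have := Real.add_one_le_exp (-p)
      linarith
    have h7 : F0 ^ (h / s) * (1 - p) ≤ 1 * (1 - p) :=
      mul_le_mul_of_nonneg_right h4 (by linarith)
    linarith
  have h8 : (Fs ^ (h / s)) ^ (s / h) ≤ (Real.exp (-p)) ^ (s / h) :=
    Real.rpow_le_rpow (Real.rpow_nonneg hFs _) h5 (div_pos hs0 hh).le
  rw [← Real.rpow_mul hFs, ← Real.exp_mul] at h8
  have h9 : h / s * (s / h) = 1 := by field_simp
  rw [h9, Real.rpow_one] at h8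
  have h10 : -p * (s / h) = -(p / h) * s := by ring
  rwa [h10] at h8

/-- the integral of the bound -/
theorem lsb_int {p h : ℝ} (hp : 0 < p) (hp1 : p ≤ 1) (hh : 0 < h) :
    IntegrableOn (fun t : ℝ => (Iic h).indicator (fun _ => (1 : ℝ)) t + Real.exp (-(p / h) * t))
      (Ioi 0) ∧
    ∫ t in Ioi (0 : ℝ), ((Iic h).indicator (fun _ => (1 : ℝ)) t + Real.exp (-(p / h) * t))
      ≤ 2 * h / p := by
  have ha : -(p / h) < 0 := neg_neg_of_pos (div_pos hp hh)
  have hs : Ioi (0 : ℝ) ∩ Iic h = Ioc 0 h := rfl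
  have i1 : IntegrableOn (fun t : ℝ => (Iic h).indicator (fun _ => (1 : ℝ)) t) (Ioi 0) := by
    have : IntegrableOn (fun _ : ℝ => (1 : ℝ)) (Ioc 0 h) :=
      integrableOn_const (by simp) (by simp)
    rw [← hs] at this
    rw [IntegrableOn, integrable_indicator_iff measurableSet_Iic, IntegrableOn,
      Measure.restrict_restrict measurableSet_Iic, inter_comm]
    exact this
  have i2 := integrableOn_exp_mul_Ioi ha 0
  refine ⟨i1.add i2, ?_⟩
  rw [integral_add i1 i2, integral_exp_mul_Ioi ha, setIntegral_indicator measurableSet_Iic, hs]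
  simp only [mul_zero, Real.exp_zero, integral_const, smul_eq_mul, mul_one]
  have hv : (volume.restrict (Ioc (0 : ℝ) h)).real univ = h := by
    simp [Measure.real, hh.le]
  rw [hv]
  have h1 : (-1 : ℝ) / -(p / h) = h / p := by field_simp
  rw [h1]
  have h2 : h ≤ h / p := by
    rw [le_div_iff₀ hp]
    nlinarith
  have h3 : 2 * h / p = h / p + h / p := by ring
  linarith

/-- one side -/
theorem lsb_side {ν : Measure ℝ} [IsProbabilityMeasure ν] {f : ℝ → ℝ} (hf : Integrable f ν)
    (hf0 : ∀ u, 0 ≤ f u) {p h : ℝ} (hp : 0 < p) (hp1 : p ≤ 1) (hh : 0 < h)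
    (hb : ∀ s : ℝ, h < s → ν.real {u | s < f u} ≤ Real.exp (-(p / h) * s)) :
    ∫ u, f u ∂ν ≤ 2 * h / p := by
  rw [hf.integral_eq_integral_meas_lt (ae_of_all _ hf0)]
  obtain ⟨i1, i2⟩ := lsb_int hp hp1 hh
  refine le_trans ?_ i2
  refine integral_mono_of_nonneg (ae_of_all _ fun t => measureReal_nonneg) i1 ?_
  refine (ae_restrict_iff' measurableSet_Ioi).mpr (ae_of_all _ fun t ht => ?_)
  have ht' : (0 : ℝ) < t := ht
  by_cases hth : t ≤ h
  · have h1 : (Iic h).indicator (fun _ => (1 : ℝ)) t = 1 := indicator_of_mem (show t ∈ Iic h from hth) _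
    show ν.real {u | t < f u} ≤ (Iic h).indicator (fun _ => (1 : ℝ)) t + Real.exp (-(p / h) * t)
    rw [h1]
    have := Real.exp_pos (-(p / h) * t)
    have h2 : ν.real {u | t < f u} ≤ 1 := measureReal_le_one
    linarith
  · have h1 : (Iic h).indicator (fun _ => (1 : ℝ)) t = 0 := indicator_of_notMem (show t ∉ Iic h from hth) _
    show ν.real {u | t < f u} ≤ (Iic h).indicator (fun _ => (1 : ℝ)) t + Real.exp (-(p / h) * t)
    rw [h1, zero_add]
    exact hb t (not_le.mp hth)

/-- open intervals -/
theorem lsb_open {ν : Measure ℝ} (hν : LCR ν) (hi : Integrable (fun u : ℝ => u) ν) (b h : ℝ)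
    (hh : 0 < h) : ν.real (Ioo b (b + h)) * mdv ν ≤ 8 * h := by
  have := hν.prob
  set p := ν.real (Ioo b (b + h)) with hpdef
  have hp0 : 0 ≤ p := measureReal_nonneg
  have hp1 : p ≤ 1 := measureReal_le_one
  rcases hp0.eq_or_lt with h0 | hp
  · rw [← h0, zero_mul]; positivity
  have hib : Integrable (fun u : ℝ => u - b) ν := hi.sub (integrable_const b)
  have hic : Integrable (fun u : ℝ => b + h - u) ν := (integrable_const (b + h)).sub hi
  have up : ∫ u, max (u - b) 0 ∂ν ≤ 2 * h / p := by
    refine lsb_side hib.pos_part (fun u => le_max_right _ _) hp hp1 hh fun s hs => ?_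
    have hs0 : 0 < s := hh.trans hs
    have e1 : {u : ℝ | s < max (u - b) 0} = Ioi (b + s) := by
      ext u
      simp only [mem_ofPred_eq, mem_Ioi, lt_max_iff]
      constructor
      · rintro (h1 | h1)
        · linarith
        · linarith
      · intro h1; left; linarith
    rw [e1]
    have hsum : p + ν.real (Ioi (b + h)) ≤ ν.real (Ioi b) := by
      rw [hpdef, ← measureReal_union (by
        rw [Set.disjoint_left]; rintro x ⟨_, hx⟩ hx2; exact absurd hx (not_lt.mpr (le_of_lt hx2)))
        measurableSet_Ioi]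
      refine measureReal_mono ?_
      rintro x (hx | hx)
      · exact hx.1
      · have : b + h < x := hx
        show b < x
        linarith
    have hF0 : 0 < ν.real (Ioi b) := by
      have := measureReal_nonneg (μ := ν) (s := Ioi (b + h))
      linarith
    refine lsb_point hF0 measureReal_le_one measureReal_nonneg hh hs hp0 hp1 hsum ?_
    have h1 := hν.up b (b + s) (h / s) (div_pos hh hs0) ((div_lt_one hs0).mpr hs)
    have h2 : (1 - h / s) * b + h / s * (b + s) = b + h := by field_simp; ring
    rwa [h2] at h1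
  have lo : ∫ u, max (b + h - u) 0 ∂ν ≤ 2 * h / p := by
    refine lsb_side hic.pos_part (fun u => le_max_right _ _) hp hp1 hh fun s hs => ?_
    have hs0 : 0 < s := hh.trans hs
    have e1 : {u : ℝ | s < max (b + h - u) 0} = Iio (b + h - s) := by
      ext u
      simp only [mem_ofPred_eq, mem_Iio, lt_max_iff]
      constructor
      · rintro (h1 | h1)
        · linarith
        · linarith
      · intro h1; left; linarith
    rw [e1]
    have hsum : p + ν.real (Iio b) ≤ ν.real (Iio (b + h)) := by
      rw [hpdef, ← measureReal_union (by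
        rw [Set.disjoint_left]; rintro x ⟨hx, _⟩ hx2; exact absurd hx (not_lt.mpr (le_of_lt hx2)))
        measurableSet_Iio]
      refine measureReal_mono ?_
      rintro x (hx | hx)
      · exact hx.2
      · have : x < b := hx
        show x < b + h
        linarith
    have hF0 : 0 < ν.real (Iio (b + h)) := by
      have := measureReal_nonneg (μ := ν) (s := Iio b)
      linarith
    refine lsb_point hF0 measureReal_le_one measureReal_nonneg hh hs hp0 hp1 hsum ?_
    have h1 := hν.lo (b + h) (b + h - s) (h / s) (div_pos hh hs0) ((div_lt_one hs0).mpr hs)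
    have h2 : (1 - h / s) * (b + h) + h / s * (b + h - s) = b := by field_simp; ring
    rwa [h2] at h1
  have habs : ∫ u, |u - b| ∂ν ≤ 4 * h / p := by
    have h1 : ∫ u, |u - b| ∂ν ≤ ∫ u, (max (u - b) 0 + max (b + h - u) 0) ∂ν := by
      refine integral_mono hib.abs (hib.pos_part.add hic.pos_part) fun u => ?_
      show |u - b| ≤ max (u - b) 0 + max (b + h - u) 0
      rcases le_total b u with hu | hu
      · rw [abs_of_nonneg (by linarith)]
        have := le_max_left (u - b) 0
        have := le_max_right (b + h - u) 0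
        linarith
      · rw [abs_of_nonpos (by linarith)]
        have := le_max_right (u - b) 0
        have := le_max_left (b + h - u) 0
        linarith
    rw [integral_add hib.pos_part hic.pos_part] at h1
    have h2 : 4 * h / p = 2 * h / p + 2 * h / p := by ring
    linarith
  have hm : |b - mea ν| ≤ ∫ u, |u - b| ∂ν := by
    have h1 : b - mea ν = -∫ u, (u - b) ∂ν := by
      rw [integral_sub hi (integrable_const b)]
      simp [mea]
    rw [h1, abs_neg]
    exact abs_integral_le_integral_abs
  have hM : mdv ν ≤ 8 * h / p := by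
    have h1 : mdv ν ≤ ∫ u, (|u - b| + |b - mea ν|) ∂ν := by
      refine integral_mono (hi.sub (integrable_const _)).abs
        (hib.abs.add (integrable_const _)) fun u => ?_
      show |u - mea ν| ≤ |u - b| + |b - mea ν|
      exact abs_sub_le _ _ _
    rw [integral_add hib.abs (integrable_const _)] at h1
    simp only [integral_const, probReal_univ, smul_eq_mul, one_mul] at h1
    have h2 : 8 * h / p = 4 * h / p + 4 * h / p := by ring
    linarith
  calc p * mdv ν ≤ p * (8 * h / p) := mul_le_mul_of_nonneg_left hM hp0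
    _ = 8 * h := by field_simp

/-- LSB. Small balls. -/
theorem lsb : LsbStmt := by
  intro ν hν hi b h hh
  have := hν.prob
  have hM : 0 ≤ mdv ν := integral_nonneg fun u => abs_nonneg _
  have key : ν.real (Icc b (b + h)) * mdv ν ≤ 8 * h := by
    refine le_of_forall_pos_le_add fun ε hε => ?_
    have h1 := lsb_open hν hi (b - ε / 16) (h + ε / 8) (by linarith)
    have h2 : ν.real (Icc b (b + h)) ≤ ν.real (Ioo (b - ε / 16) (b - ε / 16 + (h + ε / 8))) := by
      refine measureReal_mono ?_
      rintro x ⟨hx1, hx2⟩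
      exact ⟨by linarith, by linarith⟩
    have h3 := mul_le_mul_of_nonneg_right h2 hM
    linarith
  linarith

end Pool.Agent.Helper26.KS
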